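import Mathlib

/-! # Local periods of a two-dimensional configuration: persistence along a strip -/

namespace Pool.Agent.N759.NV

variable {A : Type*}

/-- points `u` with `|u - z - t v| ≤ (9/2) s` for some real `t`, `|t| ≤ τ` -/
def T (s : Fin 2 → ℝ) (τ : ℝ) (v z : Fin 2 → ℤ) : Set (Fin 2 → ℤ) :=
  {u | ∃ t : ℝ, |t| ≤ τ ∧ ∀ i, |(u i : ℝ) - z i - t * v i| ≤ 9 / 2 * s i}

/-- `w` is a period of the box of radius `6 s` around `z` and of everything it meets there -/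
def Strong (c : (Fin 2 → ℤ) → A) (s : Fin 2 → ℝ) (z w : Fin 2 → ℤ) : Prop :=
  ∀ u : Fin 2 → ℤ, (∀ i, |(u i : ℝ) - z i| ≤ 6 * s i) → c (u + w) = c u ∧ c (u - w) = c u

/-- `v` is a period on `T`, and all internal periods of `T` are parallel to `v` -/
def GoodP (c : (Fin 2 → ℤ) → A) (s : Fin 2 → ℝ) (τ : ℝ) (v z : Fin 2 → ℤ) : Prop :=
  (∀ u ∈ T s τ v z, c (u + v) = c u) ∧
  ∀ w : Fin 2 → ℤ, (∀ i, |(w i : ℝ)| ≤ s i) →
    (∀ u, u ∈ T s τ v z → u + w ∈ T s τ v z → c (u + w) = c u) → w 0 * v 1 = w 1 * v 0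

lemma Strong.neg {c : (Fin 2 → ℤ) → A} {s : Fin 2 → ℝ} {z w : Fin 2 → ℤ} (h : Strong c s z w) :
    Strong c s z (-w) := by
  intro u hu
  obtain ⟨h1, h2⟩ := h u hu
  refine ⟨?_, ?_⟩
  · rw [← sub_eq_add_neg]; exact h2
  · rw [sub_neg_eq_add]; exact h1

/-- parallel vectors -/
lemma exists_ratio {v w : Fin 2 → ℤ} (hv : v ≠ 0) (h : w 0 * v 1 = w 1 * v 0) :
    ∃ l : ℝ, ∀ i, (w i : ℝ) = l * v i := by
  have hR : (w 0 : ℝ) * v 1 = w 1 * v 0 := by exact_mod_cast h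
  by_cases h0 : v 0 = 0
  · have h1 : v 1 ≠ 0 := by
      intro h1
      apply hv
      funext i
      fin_cases i
      · exact h0
      · exact h1
    have h1R : (v 1 : ℝ) ≠ 0 := by exact_mod_cast h1
    have h0R : (v 0 : ℝ) = 0 := by exact_mod_cast h0
    refine ⟨w 1 / v 1, fun i => ?_⟩
    fin_cases i
    · show (w 0 : ℝ) = w 1 / v 1 * v 0
      rw [h0R, mul_zero] at hR ⊢
      rcases mul_eq_zero.1 hR with h2 | h2
      · exact h2
      · exact absurd h2 h1R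
    · show (w 1 : ℝ) = w 1 / v 1 * v 1
      field_simp
  · have h0R : (v 0 : ℝ) ≠ 0 := by exact_mod_cast h0
    refine ⟨w 0 / v 0, fun i => ?_⟩
    fin_cases i
    · show (w 0 : ℝ) = w 0 / v 0 * v 0
      field_simp
    · show (w 1 : ℝ) = w 0 / v 0 * v 1
      field_simp
      linarith

/-- one step in the direction of the period, for a positive ratio -/
lemma stepA_pos {c : (Fin 2 → ℤ) → A} {s : Fin 2 → ℝ} {τ : ℝ} {v z w : Fin 2 → ℤ}
    (hτ1 : ∀ i, τ * |(v i : ℝ)| ≤ s i / 2)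
    (hvs : ∀ i, |(v i : ℝ)| ≤ s i) (hg : ∀ u ∈ T s τ v z, c (u + v) = c u)
    (hw : Strong c s (z + v) w) {l : ℝ} (hl : ∀ i, (w i : ℝ) = l * v i) (hl0 : 0 < l)
    (hl2 : l ≤ 2 * τ) : ∀ u ∈ T s τ v (z + v), c (u + v) = c u := by
  have hτ0 : 0 < τ := by linarith
  have key : ∀ (j : ℕ) (u : Fin 2 → ℤ) (t : ℝ), (∀ i, |(u i : ℝ) - z i - t * v i| ≤ 9 / 2 * s i) →
      -τ ≤ t → t ≤ τ + 1 → t ≤ τ + j * l → c (u + v) = c u := by
    intro j
    induction j with
    | zero =>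
      intro u t hu h1 h2 h3
      refine hg u ⟨t, abs_le.2 ⟨h1, ?_⟩, hu⟩
      rw [Nat.cast_zero, zero_mul, add_zero] at h3
      exact h3
    | succ j ih =>
      intro u t hu h1 h2 h3
      by_cases ht : t ≤ τ
      · exact hg u ⟨t, abs_le.2 ⟨h1, ht⟩, hu⟩
      push Not at ht
      have h4 : c (u - w + v) = c (u - w) := by
        refine ih (u - w) (t - l) (fun i => ?_) (by linarith) (by linarith) ?_
        · have : (((u - w) i : ℤ) : ℝ) - z i - (t - l) * v i = (u i : ℝ) - z i - t * v i := by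
            rw [Pi.sub_apply, Int.cast_sub, hl]; ring
          rw [this]
          exact hu i
        · push_cast at h3
          linarith
      have h5 : c (u - w) = c u := by
        refine (hw u fun i => ?_).2
        have e1 : (u i : ℝ) - ((z + v) i : ℤ) = ((u i : ℝ) - z i - t * v i) + (t - 1) * v i := by
          rw [Pi.add_apply, Int.cast_add]; ring
        rw [e1]
        refine (abs_add_le _ _).trans ?_
        have e2 : |(t - 1) * (v i : ℝ)| ≤ 3 / 2 * s i := by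
          rw [abs_mul]
          have e3 : |t - 1| ≤ τ + 1 := abs_le.2 ⟨by linarith, by linarith⟩
          calc |t - 1| * |(v i : ℝ)| ≤ (τ + 1) * |(v i : ℝ)| :=
                mul_le_mul_of_nonneg_right e3 (abs_nonneg _)
            _ = τ * |(v i : ℝ)| + |(v i : ℝ)| := by ring
            _ ≤ s i / 2 + s i := add_le_add (hτ1 i) (hvs i)
            _ = 3 / 2 * s i := by ring
        have := hu i
        linarith
      have h6 : c (u + v - w) = c (u + v) := by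
        refine (hw (u + v) fun i => ?_).2
        have e1 : (((u + v) i : ℤ) : ℝ) - ((z + v) i : ℤ) =
            ((u i : ℝ) - z i - t * v i) + t * v i := by
          rw [Pi.add_apply, Pi.add_apply, Int.cast_add, Int.cast_add]; ring
        rw [e1]
        refine (abs_add_le _ _).trans ?_
        have e2 : |t * (v i : ℝ)| ≤ 3 / 2 * s i := by
          rw [abs_mul]
          have e3 : |t| ≤ τ + 1 := abs_le.2 ⟨by linarith, by linarith⟩
          calc |t| * |(v i : ℝ)| ≤ (τ + 1) * |(v i : ℝ)| :=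
                mul_le_mul_of_nonneg_right e3 (abs_nonneg _)
            _ = τ * |(v i : ℝ)| + |(v i : ℝ)| := by ring
            _ ≤ s i / 2 + s i := add_le_add (hτ1 i) (hvs i)
            _ = 3 / 2 * s i := by ring
        have := hu i
        linarith
      have h7 : u + v - w = u - w + v := by abel
      rw [← h6, h7, h4, h5]
  rintro u ⟨t, ht, hu⟩
  obtain ⟨ht1, ht2⟩ := abs_le.1 ht
  obtain ⟨j, hj⟩ := exists_nat_ge (1 / l)
  refine key j u (t + 1) (fun i => ?_) (by linarith) (by linarith) ?_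
  · have : (u i : ℝ) - z i - (t + 1) * v i = (u i : ℝ) - ((z + v) i : ℤ) - t * v i := by
      rw [Pi.add_apply, Int.cast_add]; ring
    rw [this]
    exact hu i
  · rw [div_le_iff₀ hl0] at hj
    linarith

/-- **Persistence.** -/
theorem stepA {c : (Fin 2 → ℤ) → A} {s : Fin 2 → ℝ} {τ : ℝ} {v z w : Fin 2 → ℤ}
    (hτ1 : ∀ i, τ * |(v i : ℝ)| ≤ s i / 2)
    (hτ2 : ∀ l : ℝ, (∀ i, |l * (v i : ℝ)| ≤ s i) → |l| ≤ 2 * τ)
    (hv : v ≠ 0) (hvs : ∀ i, |(v i : ℝ)| ≤ s i) (hg : GoodP c s τ v z)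
    (hw : Strong c s (z + v) w) (hw0 : w ≠ 0) (hws : ∀ i, |(w i : ℝ)| ≤ s i) :
    GoodP c s τ v (z + v) := by
  have hpar : w 0 * v 1 = w 1 * v 0 := by
    refine hg.2 w hws ?_
    rintro u ⟨t, ht, hu⟩ -
    refine (hw u fun i => ?_).1
    have e1 : (u i : ℝ) - ((z + v) i : ℤ) = ((u i : ℝ) - z i - t * v i) + (t - 1) * v i := by
      rw [Pi.add_apply, Int.cast_add]; ring
    rw [e1]
    refine (abs_add_le _ _).trans ?_
    have e2 : |(t - 1) * (v i : ℝ)| ≤ 3 / 2 * s i := by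
      rw [abs_mul]
      obtain ⟨ht1, ht2⟩ := abs_le.1 ht
      have e3 : |t - 1| ≤ τ + 1 := abs_le.2 ⟨by linarith, by linarith⟩
      calc |t - 1| * |(v i : ℝ)| ≤ (τ + 1) * |(v i : ℝ)| :=
            mul_le_mul_of_nonneg_right e3 (abs_nonneg _)
        _ = τ * |(v i : ℝ)| + |(v i : ℝ)| := by ring
        _ ≤ s i / 2 + s i := add_le_add (hτ1 i) (hvs i)
        _ = 3 / 2 * s i := by ring
    have := hu i
    linarith
  obtain ⟨l, hl⟩ := exists_ratio hv hpar
  have hl0 : l ≠ 0 := by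
    rintro rfl
    apply hw0
    funext i
    have := hl i
    rw [zero_mul] at this
    exact_mod_cast this
  have hl2 : |l| ≤ 2 * τ := hτ2 l fun i => by rw [← hl i]; exact hws i
  constructor
  · rcases lt_or_gt_of_ne hl0 with h | h
    · refine stepA_pos hτ1 hvs hg.1 hw.neg (l := -l) (fun i => ?_) (by linarith) ?_
      · rw [Pi.neg_apply, Int.cast_neg, hl i]; ring
      · rw [← abs_of_neg h]; exact hl2
    · refine stepA_pos hτ1 hvs hg.1 hw hl h ?_
      rw [← abs_of_pos h]; exact hl2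
  · intro w' hw's hw'
    refine hg.2 w' hw's fun u hu hu' => ?_
    have hsh : ∀ x, x ∈ T s τ v z → x + v ∈ T s τ v (z + v) := by
      rintro x ⟨t, ht, hx⟩
      refine ⟨t, ht, fun i => ?_⟩
      have : (((x + v) i : ℤ) : ℝ) - ((z + v) i : ℤ) - t * v i = (x i : ℝ) - z i - t * v i := by
        rw [Pi.add_apply, Pi.add_apply, Int.cast_add, Int.cast_add]; ring
      rw [this]
      exact hx i
    have h1 := hg.1 u hu
    have h2 := hg.1 (u + w') hu'
    have h3 := hw' (u + v) (hsh u hu) (by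
      have : u + v + w' = u + w' + v := by abel
      rw [this]
      exact hsh _ hu')
    have h4 : u + v + w' = u + w' + v := by abel
    rw [← h2, ← h4, h3, h1]

/-- the length `τ` -/
lemma exists_tau {s : Fin 2 → ℝ} (hs : ∀ i, 0 < s i) {v : Fin 2 → ℤ} (hv : v ≠ 0) :
    ∃ τ : ℝ, 0 ≤ τ ∧ (∀ i, τ * |(v i : ℝ)| ≤ s i / 2) ∧
      ∀ l : ℝ, (∀ i, |l * (v i : ℝ)| ≤ s i) → |l| ≤ 2 * τ := by
  set n : Fin 2 → ℝ := fun i => |(v i : ℝ)| / s i with hn
  have hn0 : ∀ i, 0 ≤ n i := fun i => div_nonneg (abs_nonneg _) (hs i).le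
  obtain ⟨k, -, hk⟩ := Finset.exists_max_image Finset.univ n ⟨0, Finset.mem_univ 0⟩
  have hkpos : 0 < n k := by
    rcases (hn0 k).lt_or_eq with h | h
    · exact h
    exfalso
    apply hv
    funext i
    have h1 := hk i (Finset.mem_univ i)
    rw [← h] at h1
    have h2 : n i = 0 := le_antisymm h1 (hn0 i)
    rw [hn] at h2
    simp only at h2
    rw [div_eq_zero_iff] at h2
    rcases h2 with h2 | h2
    · have := abs_eq_zero.1 h2
      exact_mod_cast this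
    · exact absurd h2 (hs i).ne'
  refine ⟨1 / (2 * n k), by positivity, fun i => ?_, fun l hl => ?_⟩
  · have h1 := hk i (Finset.mem_univ i)
    rw [hn] at h1
    simp only at h1
    rw [div_le_iff₀ (hs i)] at h1
    rw [div_mul_eq_mul_div, one_mul, div_le_iff₀ (by positivity)]
    have e : s i / 2 * (2 * n k) = n k * s i := by ring
    rw [e]
    exact h1
  · have h1 := hl k
    rw [abs_mul] at h1
    have h2 : |l| * n k ≤ 1 := by
      rw [hn]
      simp only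
      rw [← mul_div_assoc, div_le_iff₀ (hs k), one_mul]
      exact h1
    have e : 2 * (1 / (2 * n k)) = 1 / n k := by field_simp
    rw [e, le_div_iff₀ hkpos]
    exact h2

/-- the whole strip -/
theorem caseA {c : (Fin 2 → ℤ) → A} {s : Fin 2 → ℝ} {Ω : Set (Fin 2 → ℤ)}
    (H : ∀ z ∈ Ω, ∃ w : Fin 2 → ℤ, w ≠ 0 ∧ (∀ i, |(w i : ℝ)| ≤ s i) ∧
      Strong c s z w) {τ : ℝ} {v z : Fin 2 → ℤ}
    (hτ1 : ∀ i, τ * |(v i : ℝ)| ≤ s i / 2)
    (hτ2 : ∀ l : ℝ, (∀ i, |l * (v i : ℝ)| ≤ s i) → |l| ≤ 2 * τ)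
    (hv : v ≠ 0) (hvs : ∀ i, |(v i : ℝ)| ≤ s i) (L : ℕ)
    (hz : ∀ j : ℕ, j ≤ L → z + j • v ∈ Ω)
    (hg : GoodP c s τ v z) : ∀ j : ℕ, j ≤ L → GoodP c s τ v (z + j • v) := by
  intro j
  induction j with
  | zero => intro _; rw [zero_smul, add_zero]; exact hg
  | succ j ih =>
    intro hj
    have h1 := ih (by omega)
    have h2 : z + (j + 1) • v = z + j • v + v := by rw [add_smul, one_smul, add_assoc]
    obtain ⟨w, hw0, hws, hw⟩ := H _ (hz (j + 1) hj)
    rw [h2] at hw ⊢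
    exact stepA hτ1 hτ2 hv hvs h1 hw hw0 hws

/-- periodicity on the boxes -/
theorem caseA' {c : (Fin 2 → ℤ) → A} {s : Fin 2 → ℝ} (hs : ∀ i, 0 < s i) {Ω : Set (Fin 2 → ℤ)}
    (H : ∀ z ∈ Ω, ∃ w : Fin 2 → ℤ, w ≠ 0 ∧ (∀ i, |(w i : ℝ)| ≤ s i) ∧
      Strong c s z w) {τ : ℝ} {v z : Fin 2 → ℤ}
    (hτ1 : ∀ i, τ * |(v i : ℝ)| ≤ s i / 2)
    (hτ2 : ∀ l : ℝ, (∀ i, |l * (v i : ℝ)| ≤ s i) → |l| ≤ 2 * τ) (hτ : 0 ≤ τ)
    (hv : v ≠ 0) (hvs : ∀ i, |(v i : ℝ)| ≤ s i) (L : ℕ)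
    (hz : ∀ j : ℕ, j ≤ L → z + j • v ∈ Ω)
    (hg : GoodP c s τ v z) : ∀ j : ℕ, j ≤ L → ∀ u : Fin 2 → ℤ, (∀ i, |(u i : ℝ) - z i| ≤ s i) →
      c (u + j • v) = c u := by
  intro j
  induction j with
  | zero => intro _ u _; rw [zero_smul, add_zero]
  | succ j ih =>
    intro hj u hu
    have h1 := caseA H hτ1 hτ2 hv hvs L hz hg j (by omega)
    have h2 : u + (j + 1) • v = u + j • v + v := by rw [add_smul, one_smul, add_assoc]
    rw [h2, h1.1 (u + j • v) ?_, ih (by omega) u hu]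
    refine ⟨0, by rw [abs_zero]; exact hτ, fun i => ?_⟩
    have e : (((u + j • v) i : ℤ) : ℝ) - ((z + j • v) i : ℤ) - 0 * v i = (u i : ℝ) - z i := by
      rw [Pi.add_apply, Pi.add_apply, Int.cast_add, Int.cast_add]; ring
    rw [e]
    have := hu i
    have := hs i
    linarith

end Pool.Agent.N759.NV
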