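import Mathlib
import Pool.Agent.N759.NV.StripA

/-! # Local periods of a two-dimensional configuration: two independent internal periods -/

namespace Pool.Agent.N759.NV

variable {A : Type*}

/-- `w` is an internal period of the box with centre `z` and radius `r s` -/
def Internal (c : (Fin 2 → ℤ) → A) (s : Fin 2 → ℝ) (r : ℝ) (z w : Fin 2 → ℤ) : Prop :=
  ∀ u : Fin 2 → ℤ, (∀ i, |(u i : ℝ) - z i| ≤ r * s i) →
    (∀ i, |(((u + w) i : ℤ) : ℝ) - z i| ≤ r * s i) → c (u + w) = c u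

lemma abs_comb {x y a b p q r e1 e2 : ℝ} (hx : |x| ≤ r) (hp : |p| ≤ q) (hb : |b| ≤ q)
    (ha : |a| ≤ e1) (hy : |y| ≤ e2) : |x + a * p + y * b| ≤ r + (e1 + e2) * q := by
  have hq : 0 ≤ q := (abs_nonneg _).trans hp
  have h1 : |a * p| ≤ e1 * q := by
    rw [abs_mul]
    exact mul_le_mul ha hp (abs_nonneg _) ((abs_nonneg _).trans ha)
  have h2 : |y * b| ≤ e2 * q := by
    rw [abs_mul]
    exact mul_le_mul hy hb (abs_nonneg _) ((abs_nonneg _).trans hy)
  have h3 := abs_add_le (x + a * p) (y * b)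
  have h4 := abs_add_le x (a * p)
  calc |x + a * p + y * b| ≤ |x| + |a * p| + |y * b| := by linarith
    _ ≤ r + e1 * q + e2 * q := by linarith
    _ = r + (e1 + e2) * q := by ring

/-- rounding of two close numbers -/
lemma round_close {x y : ℝ} (h : |x - y| ≤ 1 / 2) :
    round y = round x ∨ round y = round x + 1 ∨ round y = round x - 1 := by
  have h1 := abs_le.1 (abs_sub_round x)
  have h2 := abs_le.1 (abs_sub_round y)
  have h3 := abs_le.1 h
  have h4 : (round y : ℝ) - round x ≤ 3 / 2 := by linarith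
  have h5 : -(3 / 2 : ℝ) ≤ (round y : ℝ) - round x := by linarith
  have h6 : round y - round x < 2 := by
    have : ((round y - round x : ℤ) : ℝ) < ((2 : ℤ) : ℝ) := by push_cast; linarith
    exact_mod_cast this
  have h7 : -2 < round y - round x := by
    have : (((-2 : ℤ)) : ℝ) < ((round y - round x : ℤ) : ℝ) := by push_cast; linarith
    exact_mod_cast this
  omega

/-- one step of an internal period -/
lemma Internal.step {c : (Fin 2 → ℤ) → A} {s : Fin 2 → ℝ} {r : ℝ} {z w : Fin 2 → ℤ}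
    (h : Internal c s r z w) {x y : Fin 2 → ℤ} (hx : ∀ i, |(x i : ℝ) - z i| ≤ r * s i)
    (hy : ∀ i, |(y i : ℝ) - z i| ≤ r * s i) (hxy : y = x ∨ y = x + w ∨ y = x - w) : c y = c x := by
  rcases hxy with rfl | rfl | rfl
  · rfl
  · exact h x hx hy
  · have h1 := h (x - w) hy (by rw [sub_add_cancel]; exact hx)
    rw [sub_add_cancel] at h1
    exact h1.symm

/-- **Paths.** -/
theorem path {c : (Fin 2 → ℤ) → A} {s : Fin 2 → ℝ} {z v w : Fin 2 → ℤ}
    (hvs : ∀ i, |(v i : ℝ)| ≤ s i) (hws : ∀ i, |(w i : ℝ)| ≤ s i)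
    (hv : Internal c s (9 / 2) z v) (hw : Internal c s (9 / 2) z w) (u : Fin 2 → ℤ) (a b : ℤ)
    (hu : ∀ i, |(u i : ℝ) - z i| ≤ 3 * s i)
    (hu' : ∀ i, |(((u + a • v + b • w) i : ℤ) : ℝ) - z i| ≤ 3 * s i) :
    c (u + a • v + b • w) = c u := by
  -- number of steps
  obtain ⟨M, hM0, hMa, hMb⟩ : ∃ M : ℕ, 0 < M ∧ 2 * |(a : ℝ)| ≤ M ∧ 2 * |(b : ℝ)| ≤ M := by
    obtain ⟨m, hm⟩ := exists_nat_ge (max (2 * |(a : ℝ)|) (2 * |(b : ℝ)|))
    refine ⟨m + 1, by omega, ?_, ?_⟩
    · push_cast; linarith [le_max_left (2 * |(a : ℝ)|) (2 * |(b : ℝ)|)]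
    · push_cast; linarith [le_max_right (2 * |(a : ℝ)|) (2 * |(b : ℝ)|)]
  have hMR : (0 : ℝ) < M := by exact_mod_cast hM0
  -- the points near the segment
  have hnear : ∀ (θ : ℝ), 0 ≤ θ → θ ≤ 1 → ∀ X Y : ℤ, |(X : ℝ) - θ * a| ≤ 1 →
      |(Y : ℝ) - θ * b| ≤ 1 / 2 → ∀ i, |(((u + X • v + Y • w) i : ℤ) : ℝ) - z i| ≤ 9 / 2 * s i := by
    intro θ hθ0 hθ1 X Y hX hY i
    have e : (((u + X • v + Y • w) i : ℤ) : ℝ) - z i =
        ((1 - θ) * ((u i : ℝ) - z i) + θ * ((((u + a • v + b • w) i : ℤ) : ℝ) - z i)) +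
        ((X : ℝ) - θ * a) * v i + ((Y : ℝ) - θ * b) * w i := by
      simp only [Pi.add_apply, Pi.smul_apply, Int.cast_add, smul_eq_mul, Int.cast_mul]
      ring
    rw [e]
    have h1 : |(1 - θ) * ((u i : ℝ) - z i) + θ * ((((u + a • v + b • w) i : ℤ) : ℝ) - z i)|
        ≤ 3 * s i := by
      refine (abs_add_le _ _).trans ?_
      rw [abs_mul, abs_mul, abs_of_nonneg hθ0, abs_of_nonneg (by linarith : (0 : ℝ) ≤ 1 - θ)]
      have h2 := mul_le_mul_of_nonneg_left (hu i) (by linarith : (0 : ℝ) ≤ 1 - θ)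
      have h3 := mul_le_mul_of_nonneg_left (hu' i) hθ0
      linarith
    have h4 := abs_comb h1 (hvs i) (hws i) hX hY
    refine h4.trans (le_of_eq ?_)
    ring
  set X : ℕ → ℤ := fun k => round ((k : ℝ) / M * a) with hX
  set Y : ℕ → ℤ := fun k => round ((k : ℝ) / M * b) with hY
  have key : ∀ k : ℕ, k ≤ M → c (u + X k • v + Y k • w) = c u := by
    intro k
    induction k with
    | zero =>
      intro _
      have e1 : X 0 = 0 := by simp [hX]
      have e2 : Y 0 = 0 := by simp [hY]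
      rw [e1, e2, zero_smul, zero_smul, add_zero, add_zero]
    | succ k ih =>
      intro hk
      have hkR : (k : ℝ) + 1 ≤ M := by exact_mod_cast hk
      have hθ0 : (0 : ℝ) ≤ (k : ℝ) / M := by positivity
      have hθ1 : (k : ℝ) / M ≤ 1 := by rw [div_le_one hMR]; linarith
      have hθ0' : (0 : ℝ) ≤ ((k + 1 : ℕ) : ℝ) / M := by positivity
      have hθ1' : ((k + 1 : ℕ) : ℝ) / M ≤ 1 := by rw [div_le_one hMR]; push_cast; linarith
      have hdiff : ∀ x : ℝ, 2 * |x| ≤ M → |(k : ℝ) / M * x - ((k + 1 : ℕ) : ℝ) / M * x| ≤ 1 / 2 := by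
        intro x hx
        have e : (k : ℝ) / M * x - ((k + 1 : ℕ) : ℝ) / M * x = -(x / M) := by
          push_cast; field_simp; ring
        rw [e, abs_neg, abs_div, abs_of_pos hMR, div_le_iff₀ hMR]
        linarith
      have r1 := abs_sub_round ((k : ℝ) / M * a)
      have r2 := abs_sub_round ((k : ℝ) / M * b)
      have r3 := abs_sub_round (((k + 1 : ℕ) : ℝ) / M * a)
      have r4 := abs_sub_round (((k + 1 : ℕ) : ℝ) / M * b)
      have n1 := hnear _ hθ0 hθ1 (X k) (Y k)
        (by rw [abs_sub_comm]; exact r1.trans (by norm_num)) (by rw [abs_sub_comm]; exact r2)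
      have n2 := hnear _ hθ0 hθ1 (X (k + 1)) (Y k) (by
        have h1 := abs_sub_le (((X (k + 1) : ℤ)) : ℝ) (((k + 1 : ℕ) : ℝ) / M * a) ((k : ℝ) / M * a)
        have h2 := hdiff a hMa
        rw [abs_sub_comm] at h2 r3
        exact h1.trans (by
          have h3 : |((X (k + 1) : ℤ) : ℝ) - ((k + 1 : ℕ) : ℝ) / M * a| ≤ 1 / 2 := r3
          linarith)) (by rw [abs_sub_comm]; exact r2)
      have n3 := hnear _ hθ0' hθ1' (X (k + 1)) (Y (k + 1))
        (by rw [abs_sub_comm]; exact r3.trans (by norm_num)) (by rw [abs_sub_comm]; exact r4)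
      have s1 : c (u + X (k + 1) • v + Y k • w) = c (u + X k • v + Y k • w) := by
        refine hv.step n1 n2 ?_
        rcases round_close (hdiff a hMa) with h | h | h
        · left
          have : X (k + 1) = X k := h
          rw [this]
        · right; left
          have : X (k + 1) = X k + 1 := h
          rw [this, add_smul, one_smul]; abel
        · right; right
          have : X (k + 1) = X k - 1 := h
          rw [this, sub_smul, one_smul]; abel
      have s2 : c (u + X (k + 1) • v + Y (k + 1) • w) = c (u + X (k + 1) • v + Y k • w) := by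
        refine hw.step n2 n3 ?_
        rcases round_close (hdiff b hMb) with h | h | h
        · left
          have : Y (k + 1) = Y k := h
          rw [this]
        · right; left
          have : Y (k + 1) = Y k + 1 := h
          rw [this, add_smul, one_smul]; abel
        · right; right
          have : Y (k + 1) = Y k - 1 := h
          rw [this, sub_smul, one_smul]; abel
      rw [s2, s1, ih (by omega)]
  have h1 := key M le_rfl
  have e1 : X M = a := by
    rw [hX]; simp only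
    rw [div_self hMR.ne', one_mul, round_intCast]
  have e2 : Y M = b := by
    rw [hY]; simp only
    rw [div_self hMR.ne', one_mul, round_intCast]
  rwa [e1, e2] at h1

/-- reduction modulo two independent vectors -/
lemma reduce {s : Fin 2 → ℝ} {v w : Fin 2 → ℤ} (hvw : w 0 * v 1 ≠ w 1 * v 0)
    (hvs : ∀ i, |(v i : ℝ)| ≤ s i) (hws : ∀ i, |(w i : ℝ)| ≤ s i) (u z : Fin 2 → ℤ) :
    ∃ a b : ℤ, ∀ i, |(((u + a • v + b • w) i : ℤ) : ℝ) - z i| ≤ s i := by
  have hD : (v 0 : ℝ) * w 1 - v 1 * w 0 ≠ 0 := by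
    intro h
    apply hvw
    have h1 : (v 0 : ℝ) * w 1 = v 1 * w 0 := by linarith
    have h2 : v 0 * w 1 = v 1 * w 0 := by exact_mod_cast h1
    rw [mul_comm, ← h2, mul_comm]
  set p : Fin 2 → ℝ := fun i => (u i : ℝ) - z i with hp
  set x : ℝ := (p 0 * w 1 - p 1 * w 0) / (v 0 * w 1 - v 1 * w 0) with hx
  set y : ℝ := (v 0 * p 1 - v 1 * p 0) / (v 0 * w 1 - v 1 * w 0) with hy
  have hxy : ∀ i, p i = x * v i + y * w i := by
    intro i
    rw [hx, hy]
    fin_cases i
    · show p 0 = (p 0 * w 1 - p 1 * w 0) / (v 0 * w 1 - v 1 * w 0) * v 0 +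
        (v 0 * p 1 - v 1 * p 0) / (v 0 * w 1 - v 1 * w 0) * w 0
      rw [div_mul_eq_mul_div, div_mul_eq_mul_div, ← add_div, eq_div_iff hD]
      ring
    · show p 1 = (p 0 * w 1 - p 1 * w 0) / (v 0 * w 1 - v 1 * w 0) * v 1 +
        (v 0 * p 1 - v 1 * p 0) / (v 0 * w 1 - v 1 * w 0) * w 1
      rw [div_mul_eq_mul_div, div_mul_eq_mul_div, ← add_div, eq_div_iff hD]
      ring
  refine ⟨-round x, -round y, fun i => ?_⟩
  have e : (((u + (-round x) • v + (-round y) • w) i : ℤ) : ℝ) - z i =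
      0 + (x - round x) * v i + (y - round y) * w i := by
    have h1 := hxy i
    rw [hp] at h1
    simp only at h1
    simp only [Pi.add_apply, Pi.smul_apply, Int.cast_add, smul_eq_mul, Int.cast_mul, Int.cast_neg]
    linear_combination h1
  rw [e]
  have h4 := abs_comb (x := 0) (r := 0) (by simp) (hvs i) (hws i) (abs_sub_round x)
    (abs_sub_round y)
  refine h4.trans (le_of_eq ?_)
  ring

/-- **Propagation.** -/
theorem stepB {c : (Fin 2 → ℤ) → A} {s : Fin 2 → ℝ} (hs : ∀ i, 0 < s i)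
    {z z' v v' w' : Fin 2 → ℤ}
    (hvs : ∀ i, |(v i : ℝ)| ≤ s i) (hvs' : ∀ i, |(v' i : ℝ)| ≤ s i) (hws' : ∀ i, |(w' i : ℝ)| ≤ s i)
    (hvw : w' 0 * v' 1 ≠ w' 1 * v' 0)
    (hv' : Internal c s (9 / 2) z v') (hw' : Internal c s (9 / 2) z w')
    (h : Internal c s 2 z v) (hz : ∀ i, |(z' i : ℝ) - z i| ≤ s i) : Internal c s 2 z' v := by
  intro u hu huv
  have hbig : ∀ x : Fin 2 → ℤ, (∀ i, |(x i : ℝ) - z' i| ≤ 2 * s i) →
      ∀ i, |(x i : ℝ) - z i| ≤ 3 * s i := by
    intro x hx i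
    have h1 := abs_sub_le (x i : ℝ) (z' i) (z i)
    have h2 := hx i
    have h3 := hz i
    linarith
  obtain ⟨a, b, hab⟩ := reduce hvw hvs' hws' u z
  have h1 : c (u + a • v' + b • w') = c u :=
    path hvs' hws' hv' hw' u a b (hbig u hu) fun i => (hab i).trans (by have := hs i; linarith)
  have hab' : ∀ i, |(((u + a • v' + b • w' + v) i : ℤ) : ℝ) - z i| ≤ 2 * s i := by
    intro i
    have e : (((u + a • v' + b • w' + v) i : ℤ) : ℝ) - z i =
        ((((u + a • v' + b • w') i : ℤ) : ℝ) - z i) + v i := by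
      rw [Pi.add_apply (u + a • v' + b • w') v i, Int.cast_add]; ring
    rw [e]
    refine (abs_add_le _ _).trans ?_
    have := hab i
    have := hvs i
    linarith
  have e2 : u + a • v' + b • w' + v = u + v + a • v' + b • w' := by abel
  have h2 : c (u + v + a • v' + b • w') = c (u + v) := by
    refine path hvs' hws' hv' hw' (u + v) a b (hbig _ huv) fun i => ?_
    rw [← e2]
    exact (hab' i).trans (by have := hs i; linarith)
  have h3 : c (u + a • v' + b • w' + v) = c (u + a • v' + b • w') :=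
    h _ (fun i => (hab i).trans (by have := hs i; linarith)) hab'
  rw [← h2, ← e2, h3, h1]

/-- the period of a rectangle -/
theorem caseB {c : (Fin 2 → ℤ) → A} {s : Fin 2 → ℝ} (hs : ∀ i, 0 < s i) {N : Fin 2 → ℤ} {M : ℤ}
    (hM : 0 ≤ M)
    (H : ∀ z : Fin 2 → ℤ, (∀ i, N i ≤ z i ∧ z i ≤ N i + M) →
      ∃ v w : Fin 2 → ℤ, (∀ i, |(v i : ℝ)| ≤ s i) ∧
      (∀ i, |(w i : ℝ)| ≤ s i) ∧ w 0 * v 1 ≠ w 1 * v 0 ∧
      Internal c s (9 / 2) z v ∧ Internal c s (9 / 2) z w) :
    ∃ v : Fin 2 → ℤ, v ≠ 0 ∧ (∀ i, |(v i : ℝ)| ≤ s i) ∧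
      ∀ u : Fin 2 → ℤ, (∀ i, N i ≤ u i ∧ u i ≤ N i + M) → c (u + v) = c u := by
  obtain ⟨v, w, hvs, hws, hvw, hv, hw⟩ := H N (fun i => ⟨le_rfl, by linarith⟩)
  have hv0 : v ≠ 0 := by
    rintro rfl
    apply hvw
    simp
  -- `s ≥ 1`
  have hs1 : ∀ i, 1 ≤ s i := by
    by_contra hcon
    push Not at hcon
    obtain ⟨i, hi⟩ := hcon
    have h1 : ∀ x : Fin 2 → ℤ, (∀ i, |(x i : ℝ)| ≤ s i) → x i = 0 := by
      intro x hx
      have h2 : |(x i : ℝ)| < 1 := (hx i).trans_lt hi
      have h3 : |x i| < 1 := by exact_mod_cast h2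
      exact Int.abs_lt_one_iff.1 h3
    have h2 := h1 v hvs
    have h3 := h1 w hws
    apply hvw
    fin_cases i
    · have h2' : v 0 = 0 := h2
      have h3' : w 0 = 0 := h3
      rw [h2', h3']; ring
    · have h2' : v 1 = 0 := h2
      have h3' : w 1 = 0 := h3
      rw [h2', h3']; ring
  have hstep : ∀ z z' : Fin 2 → ℤ, (∀ i, N i ≤ z i ∧ z i ≤ N i + M) →
      (∀ i, |(z' i : ℝ) - z i| ≤ 1) → Internal c s 2 z v → Internal c s 2 z' v := by
    intro z z' hz hz' h
    obtain ⟨v', w', hvs', hws', hvw', hv', hw'⟩ := H z hz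
    exact stepB hs hvs hvs' hws' hvw' hv' hw' h fun i => (hz' i).trans (hs1 i)
  have h0 : Internal c s 2 N v := by
    intro u hu huv
    exact hv u (fun i => (hu i).trans (by have := hs i; linarith)) fun i =>
      (huv i).trans (by have := hs i; linarith)
  have h1 : ∀ m : ℕ, (m : ℤ) ≤ M → Internal c s 2 ![N 0 + m, N 1] v := by
    intro m
    induction m with
    | zero =>
      intro _
      have e : ![N 0 + ((0 : ℕ) : ℤ), N 1] = N := by
        funext i; fin_cases i <;> simp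
      rw [e]; exact h0
    | succ m ih =>
      intro hm
      push_cast at hm
      refine hstep _ _ ?_ ?_ (ih (by omega))
      · intro i
        fin_cases i
        · show N 0 ≤ N 0 + (m : ℤ) ∧ N 0 + (m : ℤ) ≤ N 0 + M
          omega
        · show N 1 ≤ N 1 ∧ N 1 ≤ N 1 + M
          omega
      · intro i; fin_cases i <;> simp
  have h2 : ∀ m n : ℕ, (m : ℤ) ≤ M → (n : ℤ) ≤ M → Internal c s 2 ![N 0 + m, N 1 + n] v := by
    intro m n hm
    induction n with
    | zero => intro _; simpa using h1 m hm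
    | succ n ih =>
      intro hn
      push_cast at hn
      refine hstep _ _ ?_ ?_ (ih (by omega))
      · intro i
        fin_cases i
        · show N 0 ≤ N 0 + (m : ℤ) ∧ N 0 + (m : ℤ) ≤ N 0 + M
          omega
        · show N 1 ≤ N 1 + (n : ℤ) ∧ N 1 + (n : ℤ) ≤ N 1 + M
          omega
      · intro i; fin_cases i <;> simp
  refine ⟨v, hv0, hvs, fun u hu => ?_⟩
  obtain ⟨m, hm⟩ := Int.eq_ofNat_of_zero_le (sub_nonneg.2 (hu 0).1)
  obtain ⟨n, hn⟩ := Int.eq_ofNat_of_zero_le (sub_nonneg.2 (hu 1).1)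
  have hu' : u = ![N 0 + m, N 1 + n] := by
    funext i
    fin_cases i
    · show u 0 = N 0 + m
      linarith
    · show u 1 = N 1 + n
      linarith
  have h3 := h2 m n (by have := (hu 0).2; omega) (by have := (hu 1).2; omega)
  rw [← hu'] at h3
  refine h3 u (fun i => ?_) fun i => ?_
  · rw [sub_self, abs_zero]; have := hs i; linarith
  · have e : (((u + v) i : ℤ) : ℝ) - u i = v i := by
      rw [Pi.add_apply, Int.cast_add]; ring
    rw [e]
    have := hvs i
    have := hs i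
    linarith

end Pool.Agent.N759.NV
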