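import Mathlib
import Pool.Agent.N759.NV.StripB

/-! # Few blocks imply a periodic strip -/

namespace Pool.Agent.N759.NV

variable {A : Type*}

/-- **The strip.** -/
theorem strip {c : (Fin 2 → ℤ) → A} {s : Fin 2 → ℝ} (hs : ∀ i, 0 < s i) {S : ℤ} (hS0 : 0 ≤ S)
    (hS : ∀ (x : ℤ) (i : Fin 2), |(x : ℝ)| ≤ s i → |x| ≤ S) (L : ℕ) {M : ℤ}
    (hM : (4 * L + 2) * S ≤ M) {N : Fin 2 → ℤ}
    (H : ∀ z : Fin 2 → ℤ, (∀ i, N i ≤ z i ∧ z i ≤ N i + M) → ∃ w : Fin 2 → ℤ, w ≠ 0 ∧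
      (∀ i, |(w i : ℝ)| ≤ s i) ∧ Strong c s z w) :
    ∃ z v : Fin 2 → ℤ, (∀ i, N i ≤ z i) ∧ v ≠ 0 ∧ (∀ i, |(v i : ℝ)| ≤ s i) ∧
      ∀ j : ℕ, j ≤ L → ∀ u : Fin 2 → ℤ, (∀ i, |(u i : ℝ) - z i| ≤ s i) → c (u + j • v) = c u := by
  have hLS : 0 ≤ (L : ℤ) * S := mul_nonneg (by positivity) hS0
  have hjv : ∀ v : Fin 2 → ℤ, (∀ i, |(v i : ℝ)| ≤ s i) → ∀ j : ℕ, j ≤ L → ∀ i,
      -((L : ℤ) * S) ≤ (j • v) i ∧ (j • v) i ≤ (L : ℤ) * S := by
    intro v hv j hj i
    rw [Pi.smul_apply, nsmul_eq_mul]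
    have h3 := abs_le.1 (hS _ i (hv i))
    have h4 : ((j : ℕ) : ℤ) * (-S) ≤ ((j : ℕ) : ℤ) * v i :=
      mul_le_mul_of_nonneg_left h3.1 (by positivity)
    have h4' : ((j : ℕ) : ℤ) * v i ≤ ((j : ℕ) : ℤ) * S :=
      mul_le_mul_of_nonneg_left h3.2 (by positivity)
    have h5 : ((j : ℕ) : ℤ) * S ≤ L * S :=
      mul_le_mul_of_nonneg_right (by exact_mod_cast hj) hS0
    constructor <;> linarith
  by_cases hA : ∃ z v : Fin 2 → ℤ, (∀ i, N i + L * S ≤ z i ∧ z i ≤ N i + M - L * S) ∧ v ≠ 0 ∧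
      (∀ i, |(v i : ℝ)| ≤ s i) ∧ ∃ τ : ℝ, 0 ≤ τ ∧ (∀ i, τ * |(v i : ℝ)| ≤ s i / 2) ∧
      (∀ l : ℝ, (∀ i, |l * (v i : ℝ)| ≤ s i) → |l| ≤ 2 * τ) ∧ GoodP c s τ v z
  · obtain ⟨z, v, hz, hv, hvs, τ, hτ, hτ1, hτ2, hg⟩ := hA
    refine ⟨z, v, fun i => by have := (hz i).1; linarith, hv, hvs, ?_⟩
    refine caseA' hs (Ω := {z | ∀ i, N i ≤ z i ∧ z i ≤ N i + M}) H hτ1 hτ2 hτ hv hvs L
      (fun j hj i => ?_) hg
    have h1 := hjv v hvs j hj i
    have h2 := hz i
    rw [Pi.add_apply]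
    constructor <;> linarith
  · push Not at hA
    obtain ⟨v, hv, hvs, hper⟩ := caseB (c := c) hs (N := fun i => N i + L * S)
      (M := M - 2 * (L * S)) (by nlinarith) (by
      intro z hz
      obtain ⟨v, hv, hvs, hst⟩ := H z fun i => by
        have h1 := hz i
        constructor <;> linarith
      obtain ⟨τ, hτ, hτ1, hτ2⟩ := exists_tau hs hv
      have h1 := hA z v (fun i => by
        have h1 := hz i
        constructor <;> linarith) hv hvs τ hτ hτ1 hτ2
      unfold GoodP at h1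
      rw [not_and] at h1
      have h2 := h1 (by
        rintro u ⟨t, ht, hu⟩
        refine (hst u fun i => ?_).1
        have e : (u i : ℝ) - z i = ((u i : ℝ) - z i - t * v i) + t * v i := by ring
        rw [e]
        refine (abs_add_le _ _).trans ?_
        have e2 : |t * (v i : ℝ)| ≤ s i / 2 := by
          rw [abs_mul]
          exact (mul_le_mul_of_nonneg_right ht (abs_nonneg _)).trans (hτ1 i)
        have := hu i
        have := hs i
        linarith)
      push Not at h2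
      obtain ⟨w, hws, hw, hne⟩ := h2
      refine ⟨v, w, hvs, hws, hne, ?_, ?_⟩
      · intro u hu _
        exact (hst u fun i => (hu i).trans (by have := hs i; linarith)).1
      · intro u hu hu'
        exact hw u ⟨0, by rw [abs_zero]; exact hτ, fun i => by rw [zero_mul, sub_zero]; exact hu i⟩
          ⟨0, by rw [abs_zero]; exact hτ, fun i => by rw [zero_mul, sub_zero]; exact hu' i⟩)
    refine ⟨fun i => N i + L * S + (L + 1) * S, v, fun i => ?_, hv, hvs, ?_⟩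
    · have : 0 ≤ ((L : ℤ) + 1) * S := mul_nonneg (by positivity) hS0
      show N i ≤ N i + L * S + (L + 1) * S
      linarith
    intro j
    induction j with
    | zero => intro _ u _; rw [zero_smul, add_zero]
    | succ j ih =>
      intro hj u hu
      have h2 : u + (j + 1) • v = u + j • v + v := by rw [add_smul, one_smul, add_assoc]
      rw [h2, hper (u + j • v) ?_, ih (by omega) u hu]
      intro i
      have h1 := hjv v hvs j (by omega) i
      have h6 := hu i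
      have h7 := abs_le.1 (hS (u i - (N i + L * S + (L + 1) * S)) i (by
        push_cast; push_cast at h6; exact h6))
      rw [Pi.add_apply]
      have e : ((L : ℤ) + 1) * S = L * S + S := by ring
      have e' : (4 * (L : ℤ) + 2) * S = 4 * (L * S) + 2 * S := by ring
      rw [e] at h7
      rw [e'] at hM
      constructor <;> linarith [h7.1, h7.2]

/-- two of the `k × l` blocks at the positions `z + (a, b)`, `0 ≤ a < ⌈k / 13⌉`,
`0 ≤ b < ⌈l / 13⌉`, are equal -/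
def Rep (c : (Fin 2 → ℤ) → A) (k l : ℕ) (z : Fin 2 → ℤ) : Prop :=
  ∃ a b : Fin ((k + 12) / 13) × Fin ((l + 12) / 13), a ≠ b ∧ ∀ (i : Fin k) (j : Fin l),
    c (![z 0 + ((a.1 : ℕ) : ℤ), z 1 + ((a.2 : ℕ) : ℤ)] + ![((i : ℕ) : ℤ), ((j : ℕ) : ℤ)]) =
    c (![z 0 + ((b.1 : ℕ) : ℤ), z 1 + ((b.2 : ℕ) : ℤ)] + ![((i : ℕ) : ℤ), ((j : ℕ) : ℤ)])

/-- **Pigeonhole.** -/
theorem pigeon (k l : ℕ) : ∃ s : Fin 2 → ℝ, (∀ i, 0 < s i) ∧ ∃ T : ℤ, 0 ≤ T ∧
    ∀ (c : (Fin 2 → ℤ) → A) (N : Fin 2 → ℤ) (M : ℤ),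
      (∀ z : Fin 2 → ℤ, (∀ i, N i ≤ z i ∧ z i ≤ N i + M) → Rep c k l z) →
      ∀ z : Fin 2 → ℤ, (∀ i, N i + T ≤ z i ∧ z i ≤ N i + M) →
      ∃ w : Fin 2 → ℤ, w ≠ 0 ∧ (∀ i, |(w i : ℝ)| ≤ s i) ∧ Strong c s z w := by
  unfold Rep
  set q0 : ℕ := (k + 12) / 13 with hq0
  set q1 : ℕ := (l + 12) / 13 with hq1
  set R : Fin 2 → ℤ := ![(q0 : ℤ) - 1, (q1 : ℤ) - 1] with hR
  set K : Fin 2 → ℤ := ![(k : ℤ), (l : ℤ)] with hK
  have hR0q : (q0 : ℤ) = R 0 + 1 := by
    show (q0 : ℤ) = (q0 : ℤ) - 1 + 1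
    ring
  have hR1q : (q1 : ℤ) = R 1 + 1 := by
    show (q1 : ℤ) = (q1 : ℤ) - 1 + 1
    ring
  have hK0 : K 0 = k := rfl
  have hK1 : K 1 = l := rfl
  refine ⟨fun i => max (R i : ℝ) (1 / 7), fun i => lt_max_of_lt_right (by norm_num),
    7 * q0 + 7 * q1, by positivity, fun c N M h z hz => ?_⟩
  obtain ⟨a₀, -, -, -⟩ := h z (fun i => ⟨by have := (hz i).1; omega, (hz i).2⟩)
  have hq0' : 0 < q0 := a₀.1.pos
  have hq1' : 0 < q1 := a₀.2.pos
  have hR0 : ∀ i, 0 ≤ R i := by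
    intro i
    fin_cases i
    · show (0 : ℤ) ≤ (q0 : ℤ) - 1
      omega
    · show (0 : ℤ) ≤ (q1 : ℤ) - 1
      omega
  have hRK : ∀ i, 13 * R i < K i := by
    intro i
    fin_cases i
    · show 13 * ((q0 : ℤ) - 1) < k
      omega
    · show 13 * ((q1 : ℤ) - 1) < l
      omega
  obtain ⟨a, b, hne, hab⟩ := h (fun i => z i - 7 * R i) (fun i => by
    have h0 := hz 0
    have h1 := hz 1
    have hR00 := hR0 0
    have hR01 := hR0 1
    fin_cases i
    · show N 0 ≤ z 0 - 7 * R 0 ∧ z 0 - 7 * R 0 ≤ N 0 + M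
      omega
    · show N 1 ≤ z 1 - 7 * R 1 ∧ z 1 - 7 * R 1 ≤ N 1 + M
      omega)
  set P : Fin q0 × Fin q1 → (Fin 2 → ℤ) := fun a =>
    ![z 0 - 7 * R 0 + (a.1 : ℤ), z 1 - 7 * R 1 + (a.2 : ℤ)] with hP
  have hw : P b - P a ≠ 0 := by
    intro h0
    apply hne
    have e0 : (P b - P a) 0 = 0 := by rw [h0]; rfl
    have e1 : (P b - P a) 1 = 0 := by rw [h0]; rfl
    have e0' : (P b - P a) 0 = (b.1 : ℤ) - (a.1 : ℤ) := by
      show z 0 - 7 * R 0 + (b.1 : ℤ) - (z 0 - 7 * R 0 + (a.1 : ℤ)) = _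
      ring
    have e1' : (P b - P a) 1 = (b.2 : ℤ) - (a.2 : ℤ) := by
      show z 1 - 7 * R 1 + (b.2 : ℤ) - (z 1 - 7 * R 1 + (a.2 : ℤ)) = _
      ring
    refine Prod.ext (Fin.ext ?_) (Fin.ext ?_)
    · omega
    · omega
  have hPr : ∀ (a : Fin q0 × Fin q1) i, z i - 7 * R i ≤ P a i ∧ P a i ≤ z i - 6 * R i := by
    intro a i
    have h1 := a.1.2
    have h2 := a.2.2
    fin_cases i
    · show z 0 - 7 * R 0 ≤ z 0 - 7 * R 0 + (a.1 : ℤ) ∧ z 0 - 7 * R 0 + (a.1 : ℤ) ≤ z 0 - 6 * R 0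
      omega
    · show z 1 - 7 * R 1 ≤ z 1 - 7 * R 1 + (a.2 : ℤ) ∧ z 1 - 7 * R 1 + (a.2 : ℤ) ≤ z 1 - 6 * R 1
      omega
  have hblk : ∀ x : Fin 2 → ℤ, (∀ i, 0 ≤ x i ∧ x i < K i) → c (P a + x) = c (P b + x) := by
    intro x hx
    obtain ⟨m, hm⟩ := Int.eq_ofNat_of_zero_le (hx 0).1
    obtain ⟨n, hn⟩ := Int.eq_ofNat_of_zero_le (hx 1).1
    have hmk : m < k := by have := (hx 0).2; omega
    have hnl : n < l := by have := (hx 1).2; omega
    have h1 := hab ⟨m, hmk⟩ ⟨n, hnl⟩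
    have hx' : x = ![(m : ℤ), (n : ℤ)] := by
      funext i
      fin_cases i
      · exact hm
      · exact hn
    rw [hx']
    exact h1
  refine ⟨P b - P a, hw, fun i => ?_, fun u hu => ?_⟩
  · have h1 := hPr a i
    have h2 := hPr b i
    have h3 : |(P b - P a) i| ≤ R i := by
      rw [Pi.sub_apply, abs_le]
      constructor <;> omega
    have h4 : |(((P b - P a) i : ℤ) : ℝ)| ≤ R i := by exact_mod_cast h3
    exact h4.trans (le_max_left _ _)
  · have hu' : ∀ i, |u i - z i| ≤ 6 * R i := by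
      intro i
      have h1 := hu i
      simp only at h1
      rcases (hR0 i).lt_or_eq with h0 | h0
      · have h2 : max (R i : ℝ) (1 / 7) = R i := by
          refine max_eq_left ?_
          have : (1 : ℝ) ≤ R i := by exact_mod_cast h0
          linarith
        rw [h2] at h1
        exact_mod_cast h1
      · rw [← h0] at h1 ⊢
        have h2 : |(u i : ℝ) - z i| < 1 := by
          refine h1.trans_lt ?_
          rw [Int.cast_zero, max_eq_right (by norm_num)]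
          norm_num
        have h3 : |u i - z i| < 1 := by exact_mod_cast h2
        omega
    have hux : ∀ (a : Fin q0 × Fin q1) i, 0 ≤ (u - P a) i ∧ (u - P a) i < K i := by
      intro a i
      have h1 := hPr a i
      have h2 := abs_le.1 (hu' i)
      have h3 := hRK i
      rw [Pi.sub_apply]
      constructor <;> omega
    constructor
    · have h1 := hblk (u - P a) (hux a)
      have e1 : P a + (u - P a) = u := by abel
      have e2 : P b + (u - P a) = u + (P b - P a) := by abel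
      rw [e1, e2] at h1
      exact h1.symm
    · have h1 := hblk (u - P b) (hux b)
      have e1 : P b + (u - P b) = u := by abel
      have e2 : P a + (u - P b) = u - (P b - P a) := by abel
      rw [e1, e2] at h1
      exact h1

/-- walks in an interval -/
lemma line {X : Type*} {g : ℤ → X} {z : ℤ} {r : ℝ}
    (h : ∀ a : ℤ, |(a : ℝ) - z| ≤ r → |((a + 1 : ℤ) : ℝ) - z| ≤ r → g (a + 1) = g a) :
    ∀ a : ℤ, |(a : ℝ) - z| ≤ r → g a = g z := by
  have hp : ∀ n : ℕ, (n : ℝ) ≤ r → g (z + n) = g z := by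
    intro n
    induction n with
    | zero => intro _; rw [Nat.cast_zero, add_zero]
    | succ n ih =>
      intro hn
      push_cast at hn
      have hn0 : (0 : ℝ) ≤ n := Nat.cast_nonneg n
      have e : z + ((n + 1 : ℕ) : ℤ) = z + n + 1 := by push_cast; ring
      rw [e, h (z + n) ?_ ?_, ih (by linarith)]
      · have : ((z + n : ℤ) : ℝ) - z = n := by push_cast; ring
        rw [this, abs_of_nonneg hn0]; linarith
      · have : ((z + n + 1 : ℤ) : ℝ) - z = n + 1 := by push_cast; ring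
        rw [this, abs_of_nonneg (by linarith)]; linarith
  have hm : ∀ n : ℕ, (n : ℝ) ≤ r → g (z - n) = g z := by
    intro n
    induction n with
    | zero => intro _; rw [Nat.cast_zero, sub_zero]
    | succ n ih =>
      intro hn
      push_cast at hn
      have hn0 : (0 : ℝ) ≤ n := Nat.cast_nonneg n
      have e : z - ((n + 1 : ℕ) : ℤ) + 1 = z - n := by push_cast; ring
      have h1 := h (z - ((n + 1 : ℕ) : ℤ)) ?_ ?_
      · rw [e] at h1
        rw [← h1, ih (by linarith)]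
      · have : ((z - ((n + 1 : ℕ) : ℤ) : ℤ) : ℝ) - z = -(n + 1) := by push_cast; ring
        rw [this, abs_neg, abs_of_nonneg (by linarith)]; linarith
      · rw [e]
        have : ((z - (n : ℤ) : ℤ) : ℝ) - z = -n := by push_cast; ring
        rw [this, abs_neg, abs_of_nonneg hn0]; linarith
  intro a ha
  rcases le_total z a with h1 | h1
  · obtain ⟨n, hn⟩ := Int.eq_ofNat_of_zero_le (sub_nonneg.2 h1)
    have e : a = z + n := by omega
    rw [e] at ha ⊢
    apply hp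
    have : ((z + (n : ℤ) : ℤ) : ℝ) - z = n := by push_cast; ring
    rw [this, abs_of_nonneg (Nat.cast_nonneg n)] at ha
    exact ha
  · obtain ⟨n, hn⟩ := Int.eq_ofNat_of_zero_le (sub_nonneg.2 h1)
    have e : a = z - n := by omega
    rw [e] at ha ⊢
    apply hm
    have : ((z - (n : ℤ) : ℤ) : ℝ) - z = -n := by push_cast; ring
    rw [this, abs_neg, abs_of_nonneg (Nat.cast_nonneg n)] at ha
    exact ha

/-- functions on a box -/
lemma box_const {X : Type*} {f : (Fin 2 → ℤ) → X} {z : Fin 2 → ℤ} {s : Fin 2 → ℝ}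
    (hs : ∀ i, 0 < s i)
    (h0 : ∀ x : Fin 2 → ℤ, (∀ i, |(x i : ℝ) - z i| ≤ s i) → f (x + ![1, 0]) = f x)
    (h1 : ∀ x : Fin 2 → ℤ, (∀ i, |(x i : ℝ) - z i| ≤ s i) → f (x + ![0, 1]) = f x) :
    ∀ x : Fin 2 → ℤ, (∀ i, |(x i : ℝ) - z i| ≤ s i) → f x = f z := by
  intro x hx
  have e1 : f ![x 0, x 1] = f ![x 0, z 1] := by
    refine line (g := fun b => f ![x 0, b]) (z := z 1) (r := s 1) (fun a ha _ => ?_) (x 1) (hx 1)
    have h2 := h1 ![x 0, a] (fun i => by
      fin_cases i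
      · exact hx 0
      · exact ha)
    have e : ![x 0, a] + ![0, 1] = ![x 0, a + 1] := by
      funext i; fin_cases i <;> simp
    rw [e] at h2
    exact h2
  have e2 : f ![x 0, z 1] = f ![z 0, z 1] := by
    refine line (g := fun b => f ![b, z 1]) (z := z 0) (r := s 0) (fun a ha _ => ?_) (x 0) (hx 0)
    have h2 := h0 ![a, z 1] (fun i => by
      fin_cases i
      · exact ha
      · show |((z 1 : ℤ) : ℝ) - z 1| ≤ s 1
        rw [sub_self, abs_zero]; exact (hs 1).le)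
    have e : ![a, z 1] + ![1, 0] = ![a + 1, z 1] := by
      funext i; fin_cases i <;> simp
    rw [e] at h2
    exact h2
  have ex : x = ![x 0, x 1] := by funext i; fin_cases i <;> rfl
  have ez : z = ![z 0, z 1] := by funext i; fin_cases i <;> rfl
  rw [ex, e1, e2, ← ez]

/-- the code of a map to a group -/
def gcode {G : Type*} [Group G] (V : (Fin 2 → ℤ) → G) (u : Fin 2 → ℤ) : G × G :=
  ((V u)⁻¹ * V (u + ![1, 0]), (V u)⁻¹ * V (u + ![0, 1]))

/-- **Long powers from repetitions in windows.** -/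
theorem group_strip {G : Type*} [Group G] (V : (Fin 2 → ℤ) → G) {k l : ℕ}
    (h : ∀ M : ℕ, ∃ N : Fin 2 → ℤ, (∀ i, (M : ℤ) ≤ N i) ∧
      ∀ z : Fin 2 → ℤ, (∀ i, N i ≤ z i ∧ z i ≤ N i + M) → Rep (gcode V) k l z) :
    ∃ S : ℝ, ∀ (L : ℕ) (M : ℤ), ∃ z v : Fin 2 → ℤ, (∀ i, M ≤ z i) ∧ v ≠ 0 ∧
      (∀ i, |(v i : ℝ)| ≤ S) ∧
      ∀ j : ℕ, j ≤ L → V (z + j • v) = V z * ((V z)⁻¹ * V (z + v)) ^ j := by
  obtain ⟨s, hs, T, hT, H⟩ := pigeon (A := G × G) k l
  obtain ⟨S, hS0, hS⟩ : ∃ S : ℤ, 0 ≤ S ∧ ∀ (x : ℤ) (i : Fin 2), |(x : ℝ)| ≤ s i → |x| ≤ S := by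
    refine ⟨⌈s 0⌉ + ⌈s 1⌉, ?_, fun x i hx => ?_⟩
    · have h0 := Int.ceil_pos.2 (hs 0)
      have h1 := Int.ceil_pos.2 (hs 1)
      omega
    · have h0 := Int.ceil_pos.2 (hs 0)
      have h1 := Int.ceil_pos.2 (hs 1)
      have h2 : |x| ≤ ⌈s i⌉ := by
        have : ((|x| : ℤ) : ℝ) ≤ (⌈s i⌉ : ℤ) := by
          rw [Int.cast_abs]
          exact hx.trans (Int.le_ceil _)
        exact_mod_cast this
      have h3 : ⌈s i⌉ ≤ ⌈s 0⌉ + ⌈s 1⌉ := by
        fin_cases i
        · show ⌈s 0⌉ ≤ _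
          omega
        · show ⌈s 1⌉ ≤ _
          omega
      omega
  refine ⟨max (s 0) (s 1), fun L M => ?_⟩
  obtain ⟨N, hN, hrep⟩ := h (T + (4 * L + 2) * S + |M|).toNat
  have hpos : 0 ≤ T + (4 * L + 2) * S + |M| := by positivity
  rw [Int.toNat_of_nonneg hpos] at hN hrep
  have hLS : 0 ≤ (4 * (L : ℤ) + 2) * S := by positivity
  have hM0 := abs_nonneg M
  obtain ⟨z, v, hz, hv, hvs, hper⟩ := strip (c := gcode V) (N := fun i => N i + T)
    (M := (4 * L + 2) * S) hs hS0 hS L le_rfl (fun z hz => by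
      refine H (gcode V) N _ hrep z fun i => ?_
      have h1 := hz i
      constructor
      · exact h1.1
      · linarith [h1.2])
  refine ⟨z, v, fun i => ?_, hv, fun i => ?_, ?_⟩
  · have h1 := hz i
    have h2 := hN i
    have h3 := le_abs_self M
    linarith
  · refine (hvs i).trans ?_
    fin_cases i
    · exact le_max_left _ _
    · exact le_max_right _ _
  intro j
  induction j with
  | zero => intro _; rw [zero_smul, add_zero, pow_zero, mul_one]
  | succ j ih =>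
    intro hj
    have hstep : ∀ x : Fin 2 → ℤ, (∀ i, |(x i : ℝ) - z i| ≤ s i) →
        V (x + j • v) * (V x)⁻¹ = V (z + j • v) * (V z)⁻¹ := by
      have hgen : ∀ (x e : Fin 2 → ℤ), (V (x + j • v))⁻¹ * V (x + j • v + e) = (V x)⁻¹ * V (x + e) →
          V (x + e + j • v) * (V (x + e))⁻¹ = V (x + j • v) * (V x)⁻¹ := by
        intro x e he
        have e1 : V (x + j • v + e) = V (x + j • v) * ((V x)⁻¹ * V (x + e)) := by
          rw [← he]; group
        have e2 : x + e + j • v = x + j • v + e := by abel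
        rw [e2, e1]; group
      refine box_const (f := fun x => V (x + j • v) * (V x)⁻¹) hs ?_ ?_
      · intro x hx
        exact hgen x _ (congrArg Prod.fst (hper j (by omega) x hx))
      · intro x hx
        exact hgen x _ (congrArg Prod.snd (hper j (by omega) x hx))
    have h1 := hstep (z + v) (fun i => by
      have e : (((z + v) i : ℤ) : ℝ) - z i = v i := by rw [Pi.add_apply, Int.cast_add]; ring
      rw [e]; exact hvs i)
    have e2 : z + (j + 1) • v = z + v + j • v := by rw [add_smul, one_smul]; abel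
    have h3 : V (z + v + j • v) = V (z + j • v) * (V z)⁻¹ * V (z + v) := by
      rw [← h1]; group
    rw [e2, h3, ih (by omega), pow_succ]
    simp only [mul_assoc]

end Pool.Agent.N759.NV
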