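import Mathlib
import Pool.Agent.N759.NV.Core

/-! # Windows anywhere: periodic strips and long powers -/

open Filter Topology Matrix

namespace Pool.Agent.N759.NV

open H715R2

/-- **Long powers from repetitions in one large window.** -/
theorem group_strip_unif (G : Type*) [Group G] (k l : ℕ) :
    ∃ S : ℝ, ∀ L : ℕ, ∃ M : ℕ, ∀ (V : (Fin 2 → ℤ) → G) (N : Fin 2 → ℤ),
      (∀ z : Fin 2 → ℤ, (∀ i, N i ≤ z i ∧ z i ≤ N i + M) → Rep (gcode V) k l z) →
      ∃ z v : Fin 2 → ℤ, (∀ i, N i ≤ z i) ∧ v ≠ 0 ∧ (∀ i, |(v i : ℝ)| ≤ S) ∧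
        ∀ j : ℕ, j ≤ L → V (z + j • v) = V z * ((V z)⁻¹ * V (z + v)) ^ j := by
  obtain ⟨s, hs, T, hT, H⟩ := pigeon (A := G × G) k l
  obtain ⟨S, hS0, hS⟩ : ∃ S : ℤ, 0 ≤ S ∧ ∀ (x : ℤ) (i : Fin 2), |(x : ℝ)| ≤ s i → |x| ≤ S := by
    refine ⟨⌈s 0⌉ + ⌈s 1⌉, ?_, fun x i hx => ?_⟩
    · have h0 := Int.ceil_pos.2 (hs 0)
      have h1 := Int.ceil_pos.2 (hs 1)
      omega
    · have h0 := Int.ceil_pos.2 (hs 0)
      have h1 := Int.ceil_pos.2 (hs 1)
      have h2 : |x| ≤ ⌈s i⌉ := by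
        have : ((|x| : ℤ) : ℝ) ≤ (⌈s i⌉ : ℤ) := by
          rw [Int.cast_abs]
          exact hx.trans (Int.le_ceil _)
        exact_mod_cast this
      have h3 : ⌈s i⌉ ≤ ⌈s 0⌉ + ⌈s 1⌉ := by
        fin_cases i
        · show ⌈s 0⌉ ≤ _
          omega
        · show ⌈s 1⌉ ≤ _
          omega
      omega
  refine ⟨max (s 0) (s 1), fun L => ⟨(T + (4 * L + 2) * S).toNat, fun V N hrep => ?_⟩⟩
  have hpos : 0 ≤ T + (4 * L + 2) * S := by positivity
  rw [Int.toNat_of_nonneg hpos] at hrep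
  obtain ⟨z, v, hz, hv, hvs, hper⟩ := strip (c := gcode V) (N := fun i => N i + T)
    (M := (4 * L + 2) * S) hs hS0 hS L le_rfl (fun z hz => by
      refine H (gcode V) N _ hrep z fun i => ?_
      have h1 := hz i
      constructor
      · exact h1.1
      · linarith [h1.2])
  refine ⟨z, v, fun i => ?_, hv, fun i => ?_, ?_⟩
  · have h1 := hz i
    linarith
  · refine (hvs i).trans ?_
    fin_cases i
    · exact le_max_left _ _
    · exact le_max_right _ _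
  intro j
  induction j with
  | zero => intro _; rw [zero_smul, add_zero, pow_zero, mul_one]
  | succ j ih =>
    intro hj
    have hstep : ∀ x : Fin 2 → ℤ, (∀ i, |(x i : ℝ) - z i| ≤ s i) →
        V (x + j • v) * (V x)⁻¹ = V (z + j • v) * (V z)⁻¹ := by
      have hgen : ∀ (x e : Fin 2 → ℤ), (V (x + j • v))⁻¹ * V (x + j • v + e) = (V x)⁻¹ * V (x + e) →
          V (x + e + j • v) * (V (x + e))⁻¹ = V (x + j • v) * (V x)⁻¹ := by
        intro x e he
        have e1 : V (x + j • v + e) = V (x + j • v) * ((V x)⁻¹ * V (x + e)) := by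
          rw [← he]; group
        have e2 : x + e + j • v = x + j • v + e := by abel
        rw [e2, e1]; group
      refine box_const (f := fun x => V (x + j • v) * (V x)⁻¹) hs ?_ ?_
      · intro x hx
        exact hgen x _ (congrArg Prod.fst (hper j (by omega) x hx))
      · intro x hx
        exact hgen x _ (congrArg Prod.snd (hper j (by omega) x hx))
    have h1 := hstep (z + v) (fun i => by
      have e : (((z + v) i : ℤ) : ℝ) - z i = v i := by rw [Pi.add_apply, Int.cast_add]; ring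
      rw [e]; exact hvs i)
    have e2 : z + (j + 1) • v = z + v + j • v := by rw [add_smul, one_smul]; abel
    have h3 : V (z + v + j • v) = V (z + j • v) * (V z)⁻¹ * V (z + v) := by
      rw [← h1]; group
    rw [e2, h3, ih (by omega), pow_succ]
    simp only [mul_assoc]


variable {d : ℕ}

/-- **Long powers of one matrix of infinite order.** -/
theorem core_gen {g : Matrix (Fin d) (Fin d) ℝ} (hg : g.det ≠ 0)
    (D : (Fin 2 → ℤ) → Fin d → ℝ) (hD0 : ∀ z i, 0 < D z i)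
    (hDadd : ∀ z w i, D (z + w) i = D z i * D w i) (hDprod : ∀ z, ∏ i, D z i = 1)
    (hD1 : ∀ z, z ≠ 0 → ∃ i, 1 < D z i)
    {C : ℝ} (V : (Fin 2 → ℤ) → (Matrix (Fin d) (Fin d) ℤ)ˣ) {Ω : Set (Fin 2 → ℤ)}
    (hV : ∀ z ∈ Ω, ∀ i k,
      |(diagonal (D z) * g * zR ((V z : Matrix (Fin d) (Fin d) ℤ))) i k| ≤ C)
    (Rg : ℕ → (Fin 2 → ℤ) → Prop) (hRg : ∀ m n u, m ≤ n → Rg n u → Rg m u) (S' : ℤ)
    (hex : ∀ m : ℕ, ∃ z v : Fin 2 → ℤ, v ≠ 0 ∧ (∀ i, |v i| ≤ S') ∧
      ∀ j : ℕ, j ≤ m + 1 → Rg m (z + j • v) ∧ z + j • v ∈ Ω ∧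
        V (z + j • v) = V z * ((V z)⁻¹ * V (z + v)) ^ j) :
    ∃ U : (Matrix (Fin d) (Fin d) ℤ)ˣ, (∀ n : ℕ, 0 < n → U ^ n ≠ 1) ∧
      ∀ m : ℕ, ∃ z v : Fin 2 → ℤ, ∀ j : ℕ, j ≤ m → Rg m (z + j • v) ∧
        V z * U ^ j = V (z + j • v) ∧ ∀ i k, |(diagonal (D (z + j • v)) * g *
          zR (((V z * U ^ j : (Matrix (Fin d) (Fin d) ℤ)ˣ) : Matrix (Fin d) (Fin d) ℤ))) i k|
            ≤ C := by
  classical
  choose z v hv hvS hpow using hex
  set W : ℕ → (Matrix (Fin d) (Fin d) ℤ)ˣ := fun m => (V (z m))⁻¹ * V (z m + v m) with hW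
  -- the finite set of translations
  have hfinv : ({v : Fin 2 → ℤ | ∀ i, v i ∈ Set.Icc (-S') S'}).Finite :=
    Set.Finite.pi' fun _ => Set.finite_Icc _ _
  obtain ⟨E, hE⟩ : ∃ E : ℝ, ∀ v : Fin 2 → ℤ, (∀ i, |v i| ≤ S') → ∀ i, D (-v) i ≤ E := by
    obtain ⟨E, hE⟩ := (hfinv.image (fun v => ∑ i, D (-v) i)).bddAbove
    refine ⟨E, fun v hv i => ?_⟩
    have h1 : ∑ i, D (-v) i ≤ E := hE ⟨v, fun i => abs_le.1 (hv i), rfl⟩
    exact (Finset.single_le_sum (f := fun i => D (-v) i) (fun i _ => (hD0 _ i).le)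
      (Finset.mem_univ i)).trans h1
  have hzero : ∀ i, D 0 i = 1 := by
    intro i
    have h1 := hDadd 0 0 i
    rw [add_zero] at h1
    have h2 := hD0 0 i
    have h3 : D 0 i * (D 0 i - 1) = 0 := by linarith
    rcases mul_eq_zero.1 h3 with h4 | h4
    · exact absurd h4 h2.ne'
    · linarith
  have hdetV : ∀ z, |(zR ((V z : Matrix (Fin d) (Fin d) ℤ))).det| = 1 := by
    intro z
    rw [det_zR]
    exact abs_det_of_isUnit ((Matrix.isUnit_iff_isUnit_det _).1 (V z).isUnit)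
  have hdetH : ∀ z, |(diagonal (D z) * g * zR ((V z : Matrix (Fin d) (Fin d) ℤ))).det| = |g.det| := by
    intro z
    rw [det_mul, det_mul, det_diagonal, hDprod, one_mul, abs_mul, hdetV, mul_one]
  -- the entries of `W`
  obtain ⟨B, hB⟩ : ∃ B : ℝ, ∀ m a b, |((((W m : (Matrix (Fin d) (Fin d) ℤ)ˣ) :
      Matrix (Fin d) (Fin d) ℤ) a b : ℤ) : ℝ)| ≤ B := by
    set Q : ℝ := |g.det|⁻¹ * (d.factorial * (max C 1) ^ d) with hQ
    refine ⟨∑ _j : Fin d, Q * E * C, fun m a b => ?_⟩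
    set A := diagonal (D (z m)) * g * zR ((V (z m) : Matrix (Fin d) (Fin d) ℤ)) with hA
    set A' := diagonal (D (z m + v m)) * g * zR ((V (z m + v m) : Matrix (Fin d) (Fin d) ℤ)) with hA'
    have hAC : ∀ i k, |A i k| ≤ C := by
      refine hV (z m) ?_
      have := (hpow m 0 (by omega)).2.1
      rw [zero_smul, add_zero] at this
      exact this
    have hA'C : ∀ i k, |A' i k| ≤ C := by
      refine hV (z m + v m) ?_
      have := (hpow m 1 (by omega)).2.1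
      rw [one_smul] at this
      exact this
    have hAu : IsUnit A.det := by
      rw [isUnit_iff_ne_zero]
      intro h0
      have h1 := hdetH (z m)
      rw [← hA, h0, abs_zero] at h1
      exact hg (abs_eq_zero.1 h1.symm)
    have hrel : diagonal (D (-(v m))) * A' = A * zR ((W m : Matrix (Fin d) (Fin d) ℤ)) := by
      have e1 : diagonal (D (-(v m))) * diagonal (D (z m + v m)) = diagonal (D (z m)) := by
        rw [diagonal_mul_diagonal]
        congr 1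
        funext i
        rw [← hDadd]
        congr 1
        abel
      have e2 : ((V (z m) : Matrix (Fin d) (Fin d) ℤ)) * (W m : Matrix (Fin d) (Fin d) ℤ) =
          (V (z m + v m) : Matrix (Fin d) (Fin d) ℤ) := by
        rw [← Units.val_mul, hW]
        simp only
        rw [mul_inv_cancel_left]
      rw [hA', hA, ← e2, zR_mul, ← Matrix.mul_assoc, ← Matrix.mul_assoc, ← Matrix.mul_assoc, e1]
    have hWeq : zR ((W m : Matrix (Fin d) (Fin d) ℤ)) = A⁻¹ * (diagonal (D (-(v m))) * A') := by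
      rw [hrel, ← Matrix.mul_assoc, Matrix.nonsing_inv_mul _ hAu, Matrix.one_mul]
    have hval : ((((W m : (Matrix (Fin d) (Fin d) ℤ)ˣ) : Matrix (Fin d) (Fin d) ℤ) a b : ℤ) : ℝ) =
        (A⁻¹ * (diagonal (D (-(v m))) * A')) a b := by
      rw [← hWeq]; rfl
    rw [hval, Matrix.mul_apply]
    refine (Finset.abs_sum_le_sum_abs _ _).trans (Finset.sum_le_sum fun j _ => ?_)
    rw [diagonal_mul, abs_mul, abs_mul, abs_of_pos (hD0 _ _), ← mul_assoc]
    have h1 : |A⁻¹ a j| ≤ Q := by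
      have := inv_bound A hAC a j
      rw [hA, hdetH] at this
      exact this
    have hQ0 : 0 ≤ Q := (abs_nonneg _).trans h1
    have h2 := hE (v m) (hvS m) j
    have hE0 : 0 ≤ E := (hD0 _ _).le.trans h2
    exact mul_le_mul (mul_le_mul h1 h2 (hD0 _ _).le hQ0) (hA'C j b) (abs_nonneg _)
      (mul_nonneg hQ0 hE0)
  -- one pair occurs infinitely often
  have hfinW : ({M : Fin d → Fin d → ℤ | ∀ i k, M i k ∈ Set.Icc (-⌈B⌉) ⌈B⌉}).Finite := by
    have h2 : ({v : Fin d → ℤ | ∀ k, v k ∈ Set.Icc (-⌈B⌉) ⌈B⌉}).Finite :=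
      Set.Finite.pi' fun _ => Set.finite_Icc _ _
    exact Set.Finite.pi' fun _ => h2
  have hmemW : ∀ m, ((W m : Matrix (Fin d) (Fin d) ℤ) : Fin d → Fin d → ℤ) ∈
      {M : Fin d → Fin d → ℤ | ∀ i k, M i k ∈ Set.Icc (-⌈B⌉) ⌈B⌉} := by
    intro m i k
    have h2 := abs_le.1 (hB m i k)
    have h3 := Int.le_ceil B
    constructor
    · have : ((-⌈B⌉ : ℤ) : ℝ) ≤ (((W m : Matrix (Fin d) (Fin d) ℤ) i k : ℤ) : ℝ) := by
        rw [Int.cast_neg]
        linarith [h2.1]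
      exact_mod_cast this
    · have : (((W m : Matrix (Fin d) (Fin d) ℤ) i k : ℤ) : ℝ) ≤ ((⌈B⌉ : ℤ) : ℝ) := h2.2.trans h3
      exact_mod_cast this
  obtain ⟨p, hfreq⟩ : ∃ p : (Fin 2 → ℤ) × (Fin d → Fin d → ℤ),
      ∃ᶠ m in atTop, (v m, ((W m : Matrix (Fin d) (Fin d) ℤ) : Fin d → Fin d → ℤ)) = p := by
    by_contra hcon
    push Not at hcon
    have h1 : ∀ᶠ m in atTop, ∀ p ∈ ({v : Fin 2 → ℤ | ∀ i, v i ∈ Set.Icc (-S') S'} ×ˢ
        {M : Fin d → Fin d → ℤ | ∀ i k, M i k ∈ Set.Icc (-⌈B⌉) ⌈B⌉}),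
        (v m, ((W m : Matrix (Fin d) (Fin d) ℤ) : Fin d → Fin d → ℤ)) ≠ p := by
      rw [eventually_all_finite (hfinv.prod hfinW)]
      intro p _
      exact hcon p
    obtain ⟨m, hm⟩ := h1.exists
    exact hm _ ⟨fun i => abs_le.1 (hvS m i), hmemW m⟩ rfl
  obtain ⟨m₀, hm₀⟩ := hfreq.exists
  have hsame : ∀ m, (v m, ((W m : Matrix (Fin d) (Fin d) ℤ) : Fin d → Fin d → ℤ)) = p →
      v m = v m₀ ∧ W m = W m₀ := by
    intro m hm
    rw [← hm₀] at hm
    exact ⟨congrArg Prod.fst hm, Units.ext (congrArg Prod.snd hm)⟩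
  have hall : ∀ m : ℕ, ∃ z' : Fin 2 → ℤ, ∀ j : ℕ, j ≤ m → Rg m (z' + j • v m₀) ∧
      V z' * (W m₀) ^ j = V (z' + j • v m₀) ∧ ∀ i k, |(diagonal (D (z' + j • v m₀)) * g *
        zR (((V z' * (W m₀) ^ j : (Matrix (Fin d) (Fin d) ℤ)ˣ) : Matrix (Fin d) (Fin d) ℤ))) i k|
          ≤ C := by
    intro m
    obtain ⟨n, hn, hpn⟩ := (frequently_atTop.1 hfreq) m
    obtain ⟨e1, e2⟩ := hsame n hpn
    refine ⟨z n, fun j hj => ?_⟩
    obtain ⟨h1, h2, h3⟩ := hpow n j (by omega)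
    have h3' : V (z n) * (W m₀) ^ j = V (z n + j • v m₀) := by
      rw [← e1, ← e2, h3]
    refine ⟨?_, h3', ?_⟩
    · rw [← e1]
      exact hRg m n _ hn h1
    · rw [h3', ← e1]
      exact hV _ h2
  refine ⟨W m₀, ?_, fun m => ?_⟩
  swap
  · obtain ⟨z', hz'⟩ := hall m
    exact ⟨z', v m₀, hz'⟩
  -- infinite order
  intro n hn hUn
  have hnv : n • v m₀ ≠ 0 := by
    intro h0
    rcases smul_eq_zero.1 h0 with h1 | h1
    · omega
    · exact hv m₀ h1
  obtain ⟨i, hi⟩ := hD1 _ hnv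
  have hDpow : ∀ J : ℕ, D ((n * J) • v m₀) i = (D (n • v m₀) i) ^ J := by
    intro J
    induction J with
    | zero => rw [mul_zero, zero_smul, hzero, pow_zero]
    | succ J ih =>
      rw [mul_add, mul_one, add_smul, hDadd, ih, pow_succ]
  have hbd : ∀ J : ℕ, (D (n • v m₀) i) ^ J * |g.det| ≤ d.factorial * C ^ d := by
    intro J
    obtain ⟨z', hz'⟩ := hall (n * J)
    have h0 := (hz' 0 (by omega)).2.2
    have h1 := (hz' (n * J) le_rfl).2.2
    rw [pow_zero, mul_one, zero_smul, add_zero] at h0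
    rw [pow_mul, hUn, one_pow, mul_one] at h1
    have h2 := row_bound (diagonal (D z') * g * zR ((V z' : Matrix (Fin d) (Fin d) ℤ)))
      (T := D ((n * J) • v m₀) i) (hD0 _ _).le i h0 (fun k => by
        have h3 := h1 i k
        have e : (diagonal (D (z' + (n * J) • v m₀)) * g *
            zR ((V z' : Matrix (Fin d) (Fin d) ℤ))) i k = D ((n * J) • v m₀) i *
            (diagonal (D z') * g * zR ((V z' : Matrix (Fin d) (Fin d) ℤ))) i k := by
          rw [Matrix.mul_assoc, Matrix.mul_assoc, diagonal_mul, diagonal_mul, hDadd]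
          ring
        rw [e] at h3
        exact h3)
    rw [hdetH, hDpow] at h2
    exact h2
  have hgpos : 0 < |g.det| := abs_pos.2 hg
  obtain ⟨J, hJ⟩ := pow_unbounded_of_one_lt ((d.factorial * C ^ d) / |g.det|) hi
  rw [div_lt_iff₀ hgpos] at hJ
  exact absurd (hbd J) (not_le.2 hJ)

end Pool.Agent.N759.NV
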