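import Mathlib
import Pool.Agent.N759.NV.Core
import Pool.Agent.N759.LC.Word3

/-! # Good bases and their two-dimensional code for a counterexample to Littlewood's conjecture -/

open Filter Topology Matrix

namespace Pool.Agent.N759.NV

open H715R2 Pool.Agent.N759.LC

/-- good bases exist -/
theorem exists_good_bases {α β ν : ℝ} (hν0 : 0 < ν)
    (hν : ∀ q p r : ℤ, q ≠ 0 → ν ≤ |(q : ℝ) * (α * q - p) * (β * q - r)|) :
    ∃ C : ℝ, ∀ X Y : ℝ, 1 ≤ X → 1 ≤ Y → ∃ V : Matrix (Fin 3) (Fin 3) ℤ, |V.det| = 1 ∧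
      ∀ k, |(V 0 k : ℝ)| ≤ C * (X * Y) ∧ X * |α * V 0 k - V 1 k| ≤ C ∧
        Y * |β * V 0 k - V 2 k| ≤ C := by
  obtain ⟨ρ, R, hρ, hR⟩ := exists_bound_loc (d := 3) (by norm_num) 1 ν one_pos hν0
  set s : ℝ := max ρ 1 + 1 with hs
  have hs1 : 1 ≤ s := by
    have := le_max_right ρ 1
    linarith
  have hsρ : ρ < s := by
    have := le_max_left ρ 1
    linarith
  have hs0 : 0 < s := by linarith
  refine ⟨R * s ^ 2, fun X Y hX hY => ?_⟩
  have hX0 : 0 < X := by linarith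
  have hY0 : 0 < Y := by linarith
  have hsX : 0 < s * X := by positivity
  have hsY : 0 < s * Y := by positivity
  have hsX' : s ≤ s * X := by nlinarith
  have hsY' : s ≤ s * Y := by nlinarith
  set a : Fin 3 → ℝ := av (s * X) (s * Y) with ha
  have ha0 : ∀ i, 0 < a i := av_pos hsX hsY
  have ha1 : ∏ i, a i = 1 := av_prod hsX hsY
  have e1 : a 1 = s * X := rfl
  have e2 : a 2 = s * Y := rfl
  obtain ⟨γ, hγ, hγR⟩ := hR (diagonal a * LLm α β)
    (by rw [det_mul, det_diagonal, ha1, one_mul]; exact LLm_det α β) (by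
    intro m hm hb
    have h1 : diagonal a * LLm α β * zR (1 : Matrix (Fin 3) (Fin 3) ℤ) = diagonal a * LLm α β := by
      rw [zR_one, Matrix.mul_one]
    have h2 := first_ne α β (γ := 1) ha0 (by simp) hm (ρ := ρ) (by rw [e1]; linarith)
      (by rw [e2]; linarith) (by rw [h1]; exact hb)
    rw [one_mulVec] at h2
    have h3 := hν (m 0) (m 1) (m 2) h2
    rw [← h1, FF_orb ha1, one_mulVec, FF_LLm]
    exact h3)
  rw [ha, ← sc_eq] at hγR
  have hR0 : 0 ≤ R := (abs_nonneg _).trans (hγR 0 0)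
  refine ⟨γ, Int.isUnit_iff_abs_eq.1 hγ, fun k => ⟨?_, ?_, ?_⟩⟩
  · have h1 := hγR 0 k
    have h1' : |(γ 0 k : ℝ) / (s * X * (s * Y))| ≤ R := h1
    rw [abs_div, abs_of_pos (mul_pos hsX hsY), div_le_iff₀ (mul_pos hsX hsY)] at h1'
    refine h1'.trans (le_of_eq ?_)
    ring
  · have h1 : |s * X * (α * γ 0 k - γ 1 k)| ≤ R := hγR 1 k
    rw [abs_mul, abs_of_pos hsX] at h1
    have h2 : X * |α * γ 0 k - γ 1 k| ≤ s * X * |α * γ 0 k - γ 1 k| :=
      mul_le_mul_of_nonneg_right (by nlinarith) (abs_nonneg _)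
    have h3 : R ≤ R * s ^ 2 := le_mul_of_one_le_right hR0 (one_le_pow₀ hs1)
    linarith
  · have h1 : |s * Y * (β * γ 0 k - γ 2 k)| ≤ R := hγR 2 k
    rw [abs_mul, abs_of_pos hsY] at h1
    have h2 : Y * |β * γ 0 k - γ 2 k| ≤ s * Y * |β * γ 0 k - γ 2 k| :=
      mul_le_mul_of_nonneg_right (by nlinarith) (abs_nonneg _)
    have h3 : R ≤ R * s ^ 2 := le_mul_of_one_le_right hR0 (one_le_pow₀ hs1)
    linarith

/-- the diagonal matrices -/
noncomputable def DL (ρ σ : ℝ) (z : Fin 2 → ℤ) : Fin 3 → ℝ := av (ρ ^ z 0) (σ ^ z 1)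

/-- **Repetitions in every window imply Littlewood.** -/
theorem littlewood_of_rep {α β ρ σ C : ℝ} (hρ : 1 < ρ) (hσ : 1 < σ)
    (V : ℕ → ℕ → (Matrix (Fin 3) (Fin 3) ℤ)ˣ)
    (hV : ∀ m n : ℕ, ∀ i k, |sc α β (ρ ^ m) (σ ^ n) (V m n : Matrix (Fin 3) (Fin 3) ℤ) i k| ≤ C)
    {k l : ℕ} (h : ∀ M : ℕ, ∃ N : Fin 2 → ℤ, (∀ i, (M : ℤ) ≤ N i) ∧
      ∀ z : Fin 2 → ℤ, (∀ i, N i ≤ z i ∧ z i ≤ N i + M) →
        Rep (gcode fun z : Fin 2 → ℤ => V (z 0).toNat (z 1).toNat) k l z)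
    (ε : ℝ) (hε : 0 < ε) (N' : ℕ) : ∃ q : ℕ, N' ≤ q ∧ 0 < q ∧ fL α β q < ε := by
  have hρ0 : 0 < ρ := by linarith
  have hσ0 : 0 < σ := by linarith
  have hdet : (LLm α β).det ≠ 0 := by
    intro h0
    have h1 := LLm_det α β
    rw [h0, abs_zero] at h1
    exact zero_ne_one h1
  obtain ⟨U, hUinf, hU⟩ := core hdet (DL ρ σ)
    (fun z i => av_pos (zpow_pos hρ0 _) (zpow_pos hσ0 _) i)
    (fun z w i => by
      unfold DL
      rw [Pi.add_apply, Pi.add_apply, zpow_add₀ hρ0.ne', zpow_add₀ hσ0.ne']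
      fin_cases i
      · show (ρ ^ z 0 * ρ ^ w 0 * (σ ^ z 1 * σ ^ w 1))⁻¹ = (ρ ^ z 0 * σ ^ z 1)⁻¹ * (ρ ^ w 0 * σ ^ w 1)⁻¹
        rw [← mul_inv]
        congr 1
        ring
      · rfl
      · rfl)
    (fun z => av_prod (zpow_pos hρ0 _) (zpow_pos hσ0 _))
    (fun z hz => by
      by_cases h0 : 0 < z 0
      · exact ⟨1, one_lt_zpow₀ hρ h0⟩
      by_cases h1 : 0 < z 1
      · exact ⟨2, one_lt_zpow₀ hσ h1⟩
      refine ⟨0, ?_⟩
      show 1 < (ρ ^ z 0 * σ ^ z 1)⁻¹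
      push Not at h0 h1
      rw [mul_inv, ← _root_.zpow_neg, ← _root_.zpow_neg]
      have h2 : 1 ≤ ρ ^ (-z 0) := one_le_zpow₀ hρ.le (by omega)
      have h3 : 1 ≤ σ ^ (-z 1) := one_le_zpow₀ hσ.le (by omega)
      have h4 : z 0 ≠ 0 ∨ z 1 ≠ 0 := by
        by_contra hcon
        push Not at hcon
        apply hz
        funext i
        fin_cases i
        · exact hcon.1
        · exact hcon.2
      rcases h4 with h4 | h4
      · have h5 : 1 < ρ ^ (-z 0) := one_lt_zpow₀ hρ (by omega)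
        nlinarith
      · have h5 : 1 < σ ^ (-z 1) := one_lt_zpow₀ hσ (by omega)
        nlinarith)
    (fun z : Fin 2 → ℤ => V (z 0).toNat (z 1).toNat) (N₀ := 0) (C := C)
    (fun z hz i k => by
      have h1 := hV (z 0).toNat (z 1).toNat i k
      rw [sc_eq] at h1
      have e0 : ρ ^ (z 0).toNat = ρ ^ z 0 := by
        rw [← zpow_natCast, Int.toNat_of_nonneg (hz 0)]
      have e1 : σ ^ (z 1).toNat = σ ^ z 1 := by
        rw [← zpow_natCast, Int.toNat_of_nonneg (hz 1)]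
      rw [e0, e1] at h1
      exact h1) h
  refine word_LC U hUinf (C := C) (fun m => ?_) ε hε N'
  obtain ⟨m1, hm1⟩ := pow_unbounded_of_one_lt (m : ℝ) hρ
  obtain ⟨m2, hm2⟩ := pow_unbounded_of_one_lt (m : ℝ) hσ
  obtain ⟨z, v, hz⟩ := hU (m + m1 + m2)
  refine ⟨V (z 0).toNat (z 1).toNat, ?_, fun j hj => ?_⟩
  · exact Int.isUnit_iff_abs_eq.1 ((Matrix.isUnit_iff_isUnit_det _).1 (Units.isUnit _))
  · obtain ⟨h1, -, h3⟩ := hz j (by omega)
    refine ⟨ρ ^ (z + j • v) 0, σ ^ (z + j • v) 1, ?_, ?_, fun i k => ?_⟩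
    · refine hm1.le.trans ?_
      rw [← zpow_natCast]
      refine zpow_le_zpow_right₀ hρ.le ?_
      have := h1 0
      push_cast at this
      omega
    · refine hm2.le.trans ?_
      rw [← zpow_natCast]
      refine zpow_le_zpow_right₀ hσ.le ?_
      have := h1 1
      push_cast at this
      omega
    · rw [sc_eq]
      have h4 := h3 i k
      rw [Units.val_mul, Units.val_pow_eq_pow_val] at h4
      exact h4

end Pool.Agent.N759.NV
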